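import Pool.Agent.Helper51.AN.Goals

set_option autoImplicit false

namespace Pool.Agent.Helper51.AN

open Pool.Agent.Helper94.GA

universe u

theorem ftn_aux (n : ℕ) : ∀ (G : Type u) [Group G], Group.FG G → derivedSeries G n = ⊥ →
    (∀ g : G, ∃ k : ℕ, 0 < k ∧ g ^ k = 1) → Finite G := by
  induction n with
  | zero =>
    intro G _ _ h _
    have : Subsingleton G := by
      refine ⟨fun a b => ?_⟩
      have h1 : ∀ x : G, x = 1 := fun x => by
        have hx : x ∈ derivedSeries G 0 := Subgroup.mem_top x
        rw [h, Subgroup.mem_bot] at hx
        exact hx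
      rw [h1 a, h1 b]
    infer_instance
  | succ n ih =>
    intro G _ hfg h htor
    have hab : Finite (Abelianization G) := by
      have : Group.FG (Abelianization G) := Group.fg_of_surjective (f := Abelianization.of)
        (QuotientGroup.mk_surjective)
      apply CommGroup.finite_of_fg_torsion
      intro x
      obtain ⟨g, rfl⟩ := QuotientGroup.mk_surjective x
      obtain ⟨k, hk, hgk⟩ := htor g
      rw [isOfFinOrder_iff_pow_eq_one]
      refine ⟨k, hk, ?_⟩
      have h2 := map_pow (Abelianization.of (G := G)) g k
      rw [hgk, map_one] at h2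
      exact h2.symm
    have hq : Finite (G ⧸ commutator G) := hab
    have hind : (commutator G).FiniteIndex := Subgroup.finiteIndex_of_finite_quotient
    have hD : Group.FG (commutator G) := Subgroup.fg_of_index_ne_zero _
    have hD0 : derivedSeries (commutator G) n = ⊥ := by
      have h1 := FI2.map_ds (P := G) n
      rw [h, Subgroup.map_eq_bot_iff, Subgroup.ker_subtype, le_bot_iff] at h1
      exact h1
    have hDf : Finite (commutator G) := ih (commutator G) hD hD0 fun g => by
      obtain ⟨k, hk, hgk⟩ := htor g
      exact ⟨k, hk, Subtype.ext hgk⟩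
    have e : G ≃ (G ⧸ commutator G) × commutator G := Subgroup.groupEquivQuotientProdSubgroup
    exact Finite.of_equiv _ e.symm

theorem ftn : FtnStmt.{u} := by
  intro G _ hfg hnil htor
  have hs : Group.IsSolvable G := inferInstance
  obtain ⟨n, hn⟩ := hs.solvable
  exact ftn_aux n G hfg hn htor

end Pool.Agent.Helper51.AN
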