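import Pool.Agent.Helper51.AN.Main
import Pool.Agent.Helper51.AN.FTN
import Pool.Agent.Helper49.AN.HYP
import Pool.Agent.Helper49.AN.UNP
import Pool.Agent.Helper11.AN.VNA
import Pool.Agent.Helper37.AN.WIT
import Pool.Agent.Helper94.AN.EIG

/-!
# Project AN: `AN_stmt` without hypotheses
-/

set_option autoImplicit false

namespace Pool.Agent.Helper51.AN

universe v

/-- Growth of abelian-by-nilpotent groups which are not virtually nilpotent. -/
theorem an_stmt : Pool.Agent.Helper94.AN.AN_stmt.{v} :=
  an Pool.Agent.Helper49.AN.hyp (Pool.Agent.Helper11.AN.vna (Pool.Agent.Helper49.AN.unp ftn))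
    Pool.Agent.Helper37.AN.wit Pool.Agent.Helper94.AN.EIG Pool.Agent.Helper94.AN.GRW

end Pool.Agent.Helper51.AN
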