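import Pool.Agent.Helper51.AN.Goals
import Pool.Agent.Helper94.AN.W7

set_option autoImplicit false

namespace Pool.Agent.Helper51.AN

open Pointwise Filter Topology
open Pool.Agent.Helper94.GA Pool.Agent.Helper73.GA
open Pool.Agent.Helper11.Gap (Sym)

universe v

theorem grw : GrwStmt.{v} := by
  intro H _ _ T hT A hAn hab s hs l w hw f μ hfw horb hint
  classical
  obtain ⟨F, hF⟩ : ∃ F : H → AlgebraicClosure ℚ, ∀ x (h : x ∈ A),
      F x = f (Additive.ofMul (⟨x, h⟩ : A)) :=
    ⟨fun x => if h : x ∈ A then f (Additive.ofMul ⟨x, h⟩) else 0, fun x h => dif_pos h⟩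
  have hadd : AddOn A F := by
    intro a ha b hb
    rw [hF _ (A.mul_mem ha hb), hF a ha, hF b hb, ← map_add]
    rfl
  refine Pool.Agent.Helper94.AN.grow_of_orbit T hT A hAn F hadd s w hs w.2 l hw μ ?_ ?_ hint
  · intro k
    have hm : s ^ k * (w : H) * (s ^ k)⁻¹ ∈ A := hAn.conj_mem _ w.2 _
    rw [hF _ hm, hF _ w.2]
    exact horb k
  · rw [hF _ w.2]
    exact hfw

end Pool.Agent.Helper51.AN
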