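import Pool.Agent.Helper73.GA.UNI
import Pool.Agent.Helper94.GA.FI2
import Pool.Agent.Helper49.RO.FI

/-!
# Project AN (MP_d69e80_al): abelian-by-nilpotent groups and Lehmer's problem, packet statements

Final theorem: `S` finite symmetric, `Q` a quotient of `⟨S⟩`, `H ≤ Q` of index `f`, `P` a quotient of
`H`, `N` normal in `P` with `P/N` nilpotent of class at most `c` and `P/[N,N]` not virtually
nilpotent.  Then `ρ_S ≥ min(1, log M_λ) / (8 (3·2^c - 1) (2f-1))`.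

A packet may use another statement as an explicit hypothesis `(h : XxxStmt.{u, v, w})`.
`(⊤ : Subgroup G).lowerCentralSeries c` is `γ_{c+1}(G)`.
-/

set_option autoImplicit false

namespace Pool.Agent.Helper51.AN

open Pointwise Filter Topology
open scoped commutatorElement
open Pool.Agent.Helper94.GA Pool.Agent.Helper73.GA
open Pool.Agent.Helper11.Gap (Sym)

universe u v w

section Defs

variable {G : Type u} [Group G] {K : Type v} [Field K] {V : Type w} [AddCommGroup V] [Module K V]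

/-- `μ` is a root of unity. -/
def Tor (μ : K) : Prop := ∃ k : ℕ, 0 < k ∧ μ ^ k = 1

/-- The group acts through a nilpotent group. -/
def NilA (ρ : G →* Module.End K V) : Prop :=
  ∃ c : ℕ, ∀ g ∈ (⊤ : Subgroup G).lowerCentralSeries c, ρ g = 1

/-- `W` is invariant. -/
def Inv (ρ : G →* Module.End K V) (W : Submodule K V) : Prop := ∀ g, ∀ x ∈ W, ρ g x ∈ W

/-- No eigenvalue of `T` on `W` is a root of unity. -/
def HypOn (T : Module.End K V) (W : Submodule K V) : Prop :=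
  ∀ μ : K, ∀ x ∈ W, x ≠ 0 → T x = μ • x → ¬ Tor μ

/-- All eigenvalues of `T` on `W` are roots of unity. -/
def TorOn (T : Module.End K V) (W : Submodule K V) : Prop :=
  ∀ μ : K, ∀ x ∈ W, x ≠ 0 → T x = μ • x → Tor μ

end Defs

/-- The action on the characters of `A`: `(rho A g f)(a) = f(g⁻¹ a g)`. -/
noncomputable def rho {H : Type u} [Group H] (A : Subgroup H) [A.Normal] :
    H →* Module.End (AlgebraicClosure ℚ) (VV A) where
  toFun g := TT A g⁻¹
  map_one' := by rw [inv_one, TT_one]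
  map_mul' a b := by rw [mul_inv_rev, TT_mul']

theorem rho_apply {H : Type u} [Group H] (A : Subgroup H) [A.Normal] (g : H) :
    rho A g = TT A g⁻¹ := rfl

/-! ### Part 1: linear algebra -/

/-- **EXP.**  Proof: `Group.nilpotent_center_quotient_ind`; if `z` is central modulo the centre then
`[z^d, g] = [z, g]^d = 1`, so the hypothesis passes to `G/Z`; if `g^m ∈ Z` for all `g` then
`g^(m d) = 1`. -/
def ExpStmt : Prop := ∀ (G : Type u) [Group G], Group.IsNilpotent G → ∀ d : ℕ, 0 < d →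
  (∀ z ∈ Subgroup.center G, z ^ d = 1) → ∃ m : ℕ, 0 < m ∧ ∀ g : G, g ^ m = 1

/-- **IRR.** (May assume `ExpStmt`.)  Proof: `d = finrank V` (`V ≠ 0`, otherwise `m = 1`).
`Z₀ = {g | ∃ σ, ρ g = σ • 1}` is a normal subgroup which contains the kernel, so `G/Z₀` is nilpotent.
If `z Z₀` is central then `ρ [z,g] = ζ • 1` with `ζ^d = 1` (determinants), so `ρ (z^d)` commutes with
all `ρ g`; it has an eigenspace (`K` algebraically closed), which is invariant, so is `V`: `z^d ∈ Z₀`.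
Apply EXP to `G/Z₀`. -/
def IrrStmt : Prop := ∀ (G : Type u) [Group G] (K : Type v) [Field K] [IsAlgClosed K]
  (V : Type w) [AddCommGroup V] [Module K V] [Module.Finite K V] (ρ : G →* Module.End K V),
  NilA ρ → (∀ W : Submodule K V, Inv ρ W → W = ⊥ ∨ W = ⊤) →
  ∃ m : ℕ, 0 < m ∧ ∀ g, ∃ σ : K, ρ g ^ m = σ • (1 : Module.End K V)

/-- **LTR.** (May assume `IrrStmt`.)  Proof: `det (ρ g)^m = σ^d`, and every eigenvalue `μ` of `ρ g`
has `μ^m = σ`: so `μ` is a root of unity iff `det (ρ g)` is.  If every letter has an eigenvalue on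
`V` which is a root of unity, then `det (ρ s)` is one for all `s ∈ T`, hence `det (ρ g)` for all
`g` (a subgroup), so `TorOn (ρ g) ⊤` for all `g`. -/
def LtrStmt : Prop := ∀ (G : Type u) [Group G] (K : Type v) [Field K] [IsAlgClosed K]
  (V : Type w) [AddCommGroup V] [Module K V] [Module.Finite K V] (ρ : G →* Module.End K V),
  NilA ρ → Nontrivial V → (∀ W : Submodule K V, Inv ρ W → W = ⊥ ∨ W = ⊤) →
  ∀ T : Set G, Subgroup.closure T = ⊤ → (∃ g, ¬ TorOn (ρ g) ⊤) → ∃ s ∈ T, HypOn (ρ s) ⊤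

/-- **INV.**  Proof: `Z i` = the subgroup of `g` with `g` in the `i`-th term of the upper central
series of `G / ker ρ` (`Z 0 = ker ρ`, `Z n = ⊤`).  By induction on `i`: `g ∈ Z i` maps `C` into `C`.
For `g ∈ Z (i+1)`, `z = g s g⁻¹ s⁻¹ ∈ Z i`, `s' = z s = g s g⁻¹` maps `C` into `C` and `B` into
`B`.  With the projection `π` onto `B` along `C`: `π g s x = π s' g x = s' π g x` for `x ∈ C`.  So
`φ = π g|C : C → B` has `φ s|C = s'|B φ`; `s'|B = g s g⁻¹|B` has the eigenvalues of `s|B`.  With the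
minimal (or characteristic) polynomial `p` of `s|C`: `p(s'|B) φ = φ p(s|C) = 0` and `p(s'|B)` is
injective (no common eigenvalue), so `φ = 0`. -/
def InvStmt : Prop := ∀ (G : Type u) [Group G] (K : Type v) [Field K] [IsAlgClosed K]
  (V : Type w) [AddCommGroup V] [Module K V] [Module.Finite K V] (ρ : G →* Module.End K V),
  NilA ρ → ∀ B C : Submodule K V, IsCompl B C → Inv ρ B → ∀ s : G, (∀ x ∈ C, ρ s x ∈ C) →
  (∀ (μ : K), ∀ x ∈ B, ∀ y ∈ C, x ≠ 0 → y ≠ 0 → ρ s x = μ • x → ρ s y ≠ μ • y) → Inv ρ C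

/-- **HYP.** (May assume `LtrStmt`, `InvStmt`.)  Proof: `U` = invariant subspace of maximal
dimension with `TorOn (ρ g) U` for all `g` (`⊥` is one).  `U ≠ ⊤`.  `X` = invariant subspace of
minimal dimension with `U < X`.  The representation on `X/U` is irreducible and nontrivial, acts
through a nilpotent group, and some `g` has an eigenvalue on `X/U` which is not a root of unity
(maximality of `U`: an eigenvalue on `X` is one on `U` or on `X/U`).  LTR gives `s ∈ T` with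
`HypOn` on `X/U`.  In `X`: `U` and `C` = sum of the generalized eigenspaces of `ρ s|X` for the
non-torsion eigenvalues are complements (or: `p` = characteristic polynomial of `ρ s|U`, `C` = the
range of `p(ρ s|X)`; on `X/U` `p(ρ s)` is bijective, `p(ρ s) U = 0`).  INV for the representation
on `X`. -/
def HypStmt : Prop := ∀ (G : Type u) [Group G] (K : Type v) [Field K] [IsAlgClosed K]
  (V : Type w) [AddCommGroup V] [Module K V] [Module.Finite K V] (ρ : G →* Module.End K V),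
  NilA ρ → ∀ T : Set G, Subgroup.closure T = ⊤ → (∃ g, ¬ TorOn (ρ g) ⊤) →
  ∃ s ∈ T, ∃ C : Submodule K V, Inv ρ C ∧ C ≠ ⊥ ∧ HypOn (ρ s) C

/-- **FTN.**  A finitely generated nilpotent torsion group is finite. -/
def FtnStmt : Prop := ∀ (G : Type u) [Group G], Group.FG G → Group.IsNilpotent G →
  (∀ g : G, ∃ k : ℕ, 0 < k ∧ g ^ k = 1) → Finite G

/-- **UNP.** (May assume `IrrStmt`, `FtnStmt`.)  Proof: strong induction on `finrank V`.  `V = 0`:
`n = 0`.  `V` irreducible: by IRR `ρ g ^ m = σ • 1`, `σ` a root of unity (an eigenvalue), so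
`G / ker ρ` is a finitely generated nilpotent torsion group, finite, `U = ker ρ`, `n = 1`.
Otherwise an invariant `W`, `⊥ < W < ⊤`: the intersection of the subgroups for `W` and `V/W`, and
the flag of `W` followed by the preimages of the flag of `V/W`. -/
def UnpStmt : Prop := ∀ (G : Type u) [Group G] (K : Type v) [Field K] [IsAlgClosed K]
  (V : Type w) [AddCommGroup V] [Module K V] [Module.Finite K V] (ρ : G →* Module.End K V),
  Group.FG G → NilA ρ → (∀ g, TorOn (ρ g) ⊤) →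
  ∃ U : Subgroup G, U.FiniteIndex ∧ ∃ (n : ℕ) (F : ℕ → Submodule K V), F 0 = ⊥ ∧ F n = ⊤ ∧
    ∀ i, ∀ g ∈ U, ∀ x ∈ F (i + 1), ρ g x - x ∈ F i

/-! ### Part 2: groups -/

/-- **VNA.** (May assume `UnpStmt`; `FBN` is `Pool.Agent.Helper17.GA.FBN`.)  Proof: otherwise UNP
for `rho A` (`NilA`: `rho A` is trivial on `A`, `TT_mem`; `finV`).  The lower central series
`x 0 = U, x (i+1) = [x i, U]` has `x c ≤ γ_{c+1}(H) ≤ A`, and every `f ∈ F j` vanishes on
`x (c + j)` (`f([b,g]) = -((T_g - 1) f)(b)`, compare `chain_le` in UNI.lean), so `x (c + n)` is in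
the finite normal subgroup `FF A` (`mem_FF`, `FF_finite`); FBN: `H` is virtually nilpotent. -/
def VnaStmt : Prop := ∀ (H : Type u) [Group H], Group.FG H → ∀ (A : Subgroup H) [A.Normal],
  (∀ a ∈ A, ∀ b ∈ A, a * b = b * a) → A.FG → ∀ c : ℕ,
  (⊤ : Subgroup H).lowerCentralSeries c ≤ A → ¬ VN H → ∃ g, ¬ TorOn (rho A g) ⊤

/-- **CMT.**  Proof: `y 0 = x 0`, `y (i+1) = ⁅y i, x (i+1)⁆` with letters `x i ∈ T`;
`y i ∈ T^(3·2^i - 2)` (`T` symmetric), `y i ∈ γ_{i+1}`.  Suppose `y c ∈ N` for all choices of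
letters.  Let `N 0 = N`, `N (j+1) = {a | ∀ g, ⁅a, g⁆ ∈ N j}` (normal).  Then `y (c - j) ∈ N j` for all
letters: `y (c-j)` commutes with all letters modulo `N (j-1)`, and the letters generate `G`.  For
`j = c` all letters are in `N c`, so `N c = ⊤`, so `γ_{c+1}(G) ≤ N`. -/
def CmtStmt : Prop := ∀ (G : Type u) [Group G] [DecidableEq G] (T : Finset G), Sym T →
  Subgroup.closure (T : Set G) = ⊤ → ∀ (N : Subgroup G) [N.Normal] (c : ℕ),
  ¬ (⊤ : Subgroup G).lowerCentralSeries c ≤ N →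
  ∃ w ∈ T ^ (3 * 2 ^ c - 2), w ∉ N ∧ w ∈ (⊤ : Subgroup G).lowerCentralSeries c

/-- **WIT.** (May assume `CmtStmt`.)  Proof: `N` = the subgroup of `a ∈ A` killed by all `f ∈ C`, a
normal subgroup of `H`.  If `γ_{c+1}(H) ≤ N`, then for `a ∈ A` the commutators
`a_0 = a, a_{i+1} = s a_i s⁻¹ a_i⁻¹` are in `A` and `a_c ∈ γ_{c+1}(H) ≤ N`, so
`((T_s - 1)^c f)(a) = f(a_c) = 0` for all `f ∈ C`; but `T_s - 1` is injective on `C` (1 is a root of
unity), so bijective: `f(a) = 0` for all `f ∈ C`, `C = ⊥`.  So CMT gives `w`. -/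
def WitStmt : Prop := ∀ (H : Type u) [Group H] [DecidableEq H] (T : Finset H), Sym T →
  Subgroup.closure (T : Set H) = ⊤ → ∀ (A : Subgroup H) [A.Normal],
  (∀ a ∈ A, ∀ b ∈ A, a * b = b * a) → A.FG → ∀ c : ℕ,
  (⊤ : Subgroup H).lowerCentralSeries c ≤ A → ∀ C : Submodule (AlgebraicClosure ℚ) (VV A),
  Inv (rho A) C → C ≠ ⊥ → ∀ s : H, HypOn (TT A s) C →
  ∃ w ∈ T ^ (3 * 2 ^ c - 2), ∃ hw : w ∈ A, ∃ f ∈ C, f (Additive.ofMul ⟨w, hw⟩) ≠ 0

/-- **EIG.**  Proof: `f` is a sum of generalized eigenvectors in `C` of `T_s` (restricted to `C`; `K` is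
algebraically closed), so some `f_μ ∈ C` has `f_μ(w) ≠ 0`.  With `D = T_s - μ`, `D^N f_μ = 0`, let
`j` be the largest number such that `D^j f_μ` does not vanish on the orbit
`{s^k w s^(-k) : k ∈ ℤ}`.  `f' = D^j f_μ` has `f'(s a s⁻¹) = μ f'(a)` on the orbit, so
`f'(s^k w s^(-k)) = μ^k f'(w)` for all `k ∈ ℤ` and `f'(w) ≠ 0`.  `μ` is not a root of unity, as
`f_μ ≠ 0` gives an eigenvector `D^N' f_μ ∈ C`; `μ ≠ 0` since `T_s` is injective.  Integrality: the
subgroup generated by the orbit is finitely generated (a subgroup of a finitely generated abelian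
group), its image under `f'` is a nonzero finitely generated `ℤ`-module stable under `μ` and
`μ⁻¹` (compare AFF, `Pool.Agent.Helper84.GA.AFF`). -/
def EigStmt : Prop := ∀ (H : Type u) [Group H] (A : Subgroup H) [A.Normal],
  (∀ a ∈ A, ∀ b ∈ A, a * b = b * a) → A.FG → ∀ (C : Submodule (AlgebraicClosure ℚ) (VV A)) (s : H),
  (∀ f ∈ C, TT A s f ∈ C) → HypOn (TT A s) C → ∀ (w : A), (∃ f ∈ C, f (Additive.ofMul w) ≠ 0) →
  ∃ μ : AlgebraicClosure ℚ, μ ≠ 0 ∧ ¬ Tor μ ∧ IsIntegral ℤ μ ∧ IsIntegral ℤ μ⁻¹ ∧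
    ∃ f' : VV A, f' (Additive.ofMul w) ≠ 0 ∧
      ∀ k : ℕ, f' (Additive.ofMul (MulAut.conjNormal (s ^ k) w)) = μ ^ k * f' (Additive.ofMul w)

/-- **GRW.** (May assume `ENT_stmt` and `TW_stmt`; compare MET, `Pool.Agent.Helper83.GA.MET`.)
Proof: for bits `δ` the element `F δ = ∏_{k<n} (w^{δ_k} s)` is in `T^((l+1) n)` (`1 ∈ T`), and
`F δ * s^(-n) = ∏_{k<n} s^k w^{δ_k} s^(-k) ∈ A` has the value `∑ δ_k μ^k f(w)` under `f`. So
`log |T^((l+1) n)| ≥ ent (δ ↦ ∑ δ_k μ^k x) = avgEnt μ (fun _ : Unit => x) n`, `x = f(w) ≠ 0`. -/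
def GrwStmt : Prop := ∀ (H : Type u) [Group H] [DecidableEq H] (T : Finset H), Sym T →
  ∀ (A : Subgroup H) [A.Normal], (∀ a ∈ A, ∀ b ∈ A, a * b = b * a) → ∀ s ∈ T, ∀ (l : ℕ) (w : A),
  (w : H) ∈ T ^ l → ∀ (f : VV A) (μ : AlgebraicClosure ℚ), f (Additive.ofMul w) ≠ 0 →
  (∀ k : ℕ, f (Additive.ofMul (MulAut.conjNormal (s ^ k) w)) = μ ^ k * f (Additive.ofMul w)) →
  IsIntegral ℤ μ → Grow T (l + 1) ((1 / 8) * min 1 (Real.log (mah μ)))

/-- The conclusion for a finite set `S` with the constant `κ`. -/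
def Concl {Γ : Type u} [Group Γ] [DecidableEq Γ] (S : Finset Γ) (κ : ℝ) : Prop :=
  ∃ ρ : ℝ, Tendsto (fun n : ℕ => Real.log ((S ^ n).card : ℝ) / n) atTop (𝓝 ρ) ∧
    ∃ lam : ℂ, lam ≠ 0 ∧ IsIntegral ℤ lam ∧ IsIntegral ℤ lam⁻¹ ∧
      (∀ k : ℕ, 0 < k → lam ^ k ≠ 1) ∧
      κ * min 1 (Real.log ((minpoly ℤ lam).map (Int.castRingHom ℂ)).mahlerMeasure) ≤ ρ

/-- **FGC.** (May assume `NilA` facts, `VnaStmt`, `HypStmt`, `WitStmt`, `EigStmt`, `GrwStmt`, and the
landed `RATE_stmt`, `CAST_stmt`.)  The case `A` finitely generated.  Proof: `T` = image of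
`insert 1 S` (as a finite set of `G`), `G` is generated by `T`.  VNA, HYP for `rho A` and `T` give
`s₀ ∈ T` and `C`; `s = s₀⁻¹ ∈ T`, `rho A s₀ = TT A s`.  WIT, EIG, GRW with `l = 3·2^c - 2`,
`l + 1 = 3·2^c - 1`; RATE and CAST. -/
def FgcStmt : Prop := ∀ (Γ : Type u) [Group Γ] [DecidableEq Γ] (S : Finset Γ), S.Nonempty →
  (∀ s ∈ S, s⁻¹ ∈ S) → ∀ (G : Type w) [Group G] (ψ : Subgroup.closure (S : Set Γ) →* G),
  Function.Surjective ψ → ∀ (A : Subgroup G) [A.Normal], (∀ a ∈ A, ∀ b ∈ A, a * b = b * a) →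
  A.FG → ∀ c : ℕ, (⊤ : Subgroup G).lowerCentralSeries c ≤ A → ¬ VN G →
  Concl S (1 / (8 * (3 * 2 ^ c - 1)))

/-- **NFG.** (`Pool.Agent.Helper49.RO.main_fi` with `H = ⊤`, or its version without `H`, and
`GOLD_stmt`, `EMB`-type facts.)  The case `A` not finitely generated: `ρ ≥ (log 2)/3 ≥ 1/80`, and
`1/(8(3·2^c-1)) ≤ 1/16` (`c ≥ 0`), `min 1 (log mah golden) ≤ 1/2`, `mah` = the Mahler measure of the
minimal polynomial over `ℤ` as in FINAL. -/
def NfgStmt : Prop := ∀ (Γ : Type u) [Group Γ] [DecidableEq Γ] (S : Finset Γ), S.Nonempty →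
  ∀ (G : Type w) [Group G] (ψ : Subgroup.closure (S : Set Γ) →* G),
  Function.Surjective ψ → ∀ (A : Subgroup G) [A.Normal], Group.IsNilpotent (G ⧸ A) →
  ¬ A.FG → ∀ c : ℕ, Concl S (1 / (8 * (3 * 2 ^ c - 1)))

/-- **BAS.** (May assume `FgcStmt`, `NfgStmt`.)  Proof: `G = P/[N,N]`, `A = N/[N,N]`. -/
def BasStmt : Prop := ∀ (Γ : Type u) [Group Γ] [DecidableEq Γ] (S : Finset Γ), S.Nonempty →
  (∀ s ∈ S, s⁻¹ ∈ S) → ∀ (P : Type w) [Group P] (ψ : Subgroup.closure (S : Set Γ) →* P),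
  Function.Surjective ψ → ∀ (N : Subgroup P) [N.Normal] (c : ℕ),
  (⊤ : Subgroup P).lowerCentralSeries c ≤ N → ¬ VN (P ⧸ ⁅N, N⁆) →
  Concl S (1 / (8 * (3 * 2 ^ c - 1)))

/-- **FIX.**  The finite index step: copy of `Pool.Agent.Helper94.GA.final_fi` (FI.lean), with
`final_theorem` replaced by the hypothesis `hbase` (and `1/352` by `κ`). -/
def FixStmt : Prop := ∀ (κ : ℝ), 0 ≤ κ → ∀ (P : Type w) [Group P], ¬ Subsingleton P →
  (∀ (Γ : Type u) [Group Γ] [DecidableEq Γ] (S : Finset Γ), S.Nonempty → (∀ s ∈ S, s⁻¹ ∈ S) →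
    ∀ ψ : Subgroup.closure (S : Set Γ) →* P, Function.Surjective ψ → Concl S κ) →
  ∀ (Γ : Type u) [Group Γ] [DecidableEq Γ] (S : Finset Γ), (∀ s ∈ S, s⁻¹ ∈ S) →
  ∀ (Q : Type v) [Group Q] (φ : Subgroup.closure (S : Set Γ) →* Q), Function.Surjective φ →
  ∀ (H : Subgroup Q) (f : ℕ), 0 < f → H.index = f → ∀ (θ : H →* P), Function.Surjective θ →
  Concl S (κ / (2 * f - 1))

end Pool.Agent.Helper51.AN
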