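import Pool.Agent.Helper51.AN.Goals
import Pool.Agent.Helper94.AN.Stmt

/-!
# Project AN: assembly of `AN_stmt` from the packets
-/

set_option autoImplicit false

namespace Pool.Agent.Helper51.AN

open Pointwise Filter Topology
open scoped commutatorElement
open Pool.Agent.Helper94.GA Pool.Agent.Helper73.GA
open Pool.Agent.Helper11.Gap (Sym)

universe v

theorem nilA_rho {H : Type v} [Group H] (A : Subgroup H) [A.Normal]
    (hab : ∀ a ∈ A, ∀ b ∈ A, a * b = b * a) (c : ℕ)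
    (hc : (⊤ : Subgroup H).lowerCentralSeries c ≤ A) : NilA (rho A) :=
  ⟨c, fun g hg => by rw [rho_apply, TT_mem A hab _ (A.inv_mem (hc hg))]⟩

theorem an (hHyp : HypStmt.{v, 0, v}) (hVna : VnaStmt.{v}) (hWit : WitStmt.{v})
    (hEig : EigStmt.{v}) (hGrw : GrwStmt.{v}) : Pool.Agent.Helper94.AN.AN_stmt.{v} := by
  intro G _ _ T hT hgen A hAn hab hfg c hc hv
  have hFG : Group.FG G := ⟨⟨T, hgen⟩⟩
  have hfin : Module.Finite (AlgebraicClosure ℚ) (VV A) := finV A hfg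
  obtain ⟨s₀, hs₀, C, hCinv, hC, hhyp⟩ := hHyp G (AlgebraicClosure ℚ) (VV A) (rho A)
    (nilA_rho A hab c hc) (T : Set G) hgen (hVna G hFG A hab hfg c hc hv)
  have hs : s₀⁻¹ ∈ T := hT.inv s₀ hs₀
  have hhyp' : HypOn (TT A s₀⁻¹) C := hhyp
  have hinv' : ∀ f ∈ C, TT A s₀⁻¹ f ∈ C := fun f hf => hCinv s₀ f hf
  obtain ⟨w, hw, hwA, f, hfC, hfw⟩ := hWit G T hT hgen A hab hfg c hc C hCinv hC s₀⁻¹ hhyp'
  obtain ⟨μ, hμ0, hμt, hμ1, hμ2, f', hf'w, hf'⟩ :=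
    hEig G A hab hfg C s₀⁻¹ hinv' hhyp' ⟨w, hwA⟩ ⟨f, hfC, hfw⟩
  refine ⟨μ, hμ0, hμ1, hμ2, fun k hk h => hμt ⟨k, hk, h⟩, ?_⟩
  have h := hGrw G T hT A hab s₀⁻¹ hs (3 * 2 ^ c - 2) ⟨w, hwA⟩ hw f' μ hf'w hf' hμ1
  have e : 3 * 2 ^ c - 2 + 1 = 3 * 2 ^ c - 1 := by
    have : 1 ≤ 2 ^ c := Nat.one_le_two_pow
    omega
  rw [e] at h
  exact h

end Pool.Agent.Helper51.AN
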